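import Pool.Agent.V11321.QL.Lim

/-!
Subsequential limits of the crossing probabilities of the quadrant: assembly.
-/

set_option autoImplicit false

namespace Pool.Agent.V11321.QL

open MeasureTheory Filter Topology
open TH976.QC hiding sq
open H974

/-- a subsequence which converges at all the rational quadruples -/
theorem rat_subseq (ψ : ℕ → ℕ) : ∃ φ : ℕ → ℕ, StrictMono φ ∧ ∀ t : ℚ × ℚ × ℚ × ℚ,
    ∃ l : ℝ, Tendsto (fun j => X (ψ (φ j)) t.1 t.2.1 t.2.2.1 t.2.2.2) atTop (𝓝 l) := by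
  obtain ⟨a, -, φ, hφ, hlim⟩ :=
    (isCompact_univ (X := (ℚ × ℚ × ℚ × ℚ) → Set.Icc (0:ℝ) 1)).tendsto_subseq
    (x := fun (n : ℕ) (t : ℚ × ℚ × ℚ × ℚ) =>
      (⟨X (ψ n) t.1 t.2.1 t.2.2.1 t.2.2.2, X_nonneg _ _ _ _ _, X_le_one _ _ _ _ _⟩ :
        Set.Icc (0:ℝ) 1)) (fun n => Set.mem_univ _)
  refine ⟨φ, hφ, fun t => ⟨a t, ?_⟩⟩
  have h2 := (tendsto_pi_nhds.1 hlim) t
  exact (continuous_subtype_val.tendsto _).comp h2

/-- rational approximations from below -/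
theorem rat_below (a : ℝ) : ∃ u : ℕ → ℚ, (∀ m, (u m : ℝ) < a) ∧
    Tendsto (fun m => (u m : ℝ)) atTop (𝓝 a) := by
  have h : ∀ m : ℕ, ∃ q : ℚ, a - 1 / ((m:ℝ) + 1) < q ∧ (q:ℝ) < a := fun m =>
    exists_rat_btwn (by have : (0:ℝ) < 1 / ((m:ℝ) + 1) := by positivity
                        linarith)
  choose u hu using h
  refine ⟨u, fun m => (hu m).2, ?_⟩
  have h1 : Tendsto (fun m : ℕ => a - 1 / ((m:ℝ) + 1)) atTop (𝓝 (a - 0)) :=
    tendsto_const_nhds.sub tendsto_one_div_add_atTop_nhds_zero_nat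
  rw [sub_zero] at h1
  exact tendsto_of_tendsto_of_tendsto_of_le_of_le h1 tendsto_const_nhds
    (fun m => (hu m).1.le) (fun m => (hu m).2.le)

/-- rational approximations from above -/
theorem rat_above (a : ℝ) : ∃ u : ℕ → ℚ, (∀ m, a < (u m : ℝ)) ∧
    Tendsto (fun m => (u m : ℝ)) atTop (𝓝 a) := by
  have h : ∀ m : ℕ, ∃ q : ℚ, a < q ∧ (q:ℝ) < a + 1 / ((m:ℝ) + 1) := fun m =>
    exists_rat_btwn (by have : (0:ℝ) < 1 / ((m:ℝ) + 1) := by positivity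
                        linarith)
  choose u hu using h
  refine ⟨u, fun m => (hu m).1, ?_⟩
  have h1 : Tendsto (fun m : ℕ => a + 1 / ((m:ℝ) + 1)) atTop (𝓝 (a + 0)) :=
    tendsto_const_nhds.add tendsto_one_div_add_atTop_nhds_zero_nat
  rw [add_zero] at h1
  exact tendsto_of_tendsto_of_tendsto_of_le_of_le tendsto_const_nhds h1
    (fun m => (hu m).1.le) (fun m => (hu m).2.le)

/-- the error term tends to zero -/
theorem err_tendsto (C : ℝ) {a b c d : ℝ} (h1 : a < b) (h2 : b < c) (h3 : c < d)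
    {a1 a2 b1 b2 c1 c2 d1 d2 : ℕ → ℝ}
    (ha1 : Tendsto a1 atTop (𝓝 a)) (ha2 : Tendsto a2 atTop (𝓝 a))
    (hb1 : Tendsto b1 atTop (𝓝 b)) (hb2 : Tendsto b2 atTop (𝓝 b))
    (hc1 : Tendsto c1 atTop (𝓝 c)) (hc2 : Tendsto c2 atTop (𝓝 c))
    (hd1 : Tendsto d1 atTop (𝓝 d)) (hd2 : Tendsto d2 atTop (𝓝 d))
    (ka : ∀ m, a1 m < a2 m) (kb : ∀ m, b1 m < b2 m) (kc : ∀ m, c1 m < c2 m)
    (kd : ∀ m, d1 m < d2 m) :
    Tendsto (fun m => C * (FC (a1 m) (a2 m) (c1 m) (d2 m) + FC (b1 m) (b2 m) (c1 m) (d2 m) +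
      FC (a1 m) (b2 m) (c1 m) (c2 m) + FC (a1 m) (b2 m) (d1 m) (d2 m))) atTop (𝓝 0) := by
  have g1 := FC_tendsto ha1 ha2 hc1 hd2 (h1.trans h2) ((h1.trans h2).trans h3) (by
    filter_upwards [ha2.eventually_lt hc1 (h1.trans h2), hc1.eventually_lt hd2 h3] with m u v
    exact ⟨ka m, u, v⟩)
  have g2 := FC_tendsto hb1 hb2 hc1 hd2 h2 (h2.trans h3) (by
    filter_upwards [hb2.eventually_lt hc1 h2, hc1.eventually_lt hd2 h3] with m u v
    exact ⟨kb m, u, v⟩)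
  have g3 := FC_tendsto ha1 hb2 hc1 hc2 (h1.trans h2) h2 (by
    filter_upwards [ha1.eventually_lt hb2 h1, hb2.eventually_lt hc1 h2] with m u v
    exact ⟨u, v, kc m⟩)
  have g4 := FC_tendsto ha1 hb2 hd1 hd2 ((h1.trans h2).trans h3) (h2.trans h3) (by
    filter_upwards [ha1.eventually_lt hb2 h1, hb2.eventually_lt hd1 (h2.trans h3)] with m u v
    exact ⟨u, v, kd m⟩)
  rw [FC_zero_left] at g1 g2
  rw [FC_zero_right] at g3 g4
  have g := (((g1.add g2).add g3).add g4).const_mul C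
  simpa using g

/-- convergence at all the quadruples -/
theorem all_conv {c C : ℝ} (H : BD c C) {ψ : ℕ → ℕ} (hψ : StrictMono ψ)
    (hq : ∀ t : ℚ × ℚ × ℚ × ℚ, ∃ l : ℝ,
      Tendsto (fun j => X (ψ j) t.1 t.2.1 t.2.2.1 t.2.2.2) atTop (𝓝 l))
    {a b p q : ℝ} (h1 : a < b) (h2 : b < p) (h3 : p < q) :
    ∃ l : ℝ, Tendsto (fun j => X (ψ j) a b p q) atTop (𝓝 l) := by
  obtain ⟨a1, ka1, ta1⟩ := rat_below a
  obtain ⟨a2, ka2, ta2⟩ := rat_above a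
  obtain ⟨b1, kb1, tb1⟩ := rat_below b
  obtain ⟨b2, kb2, tb2⟩ := rat_above b
  obtain ⟨p1, kp1, tp1⟩ := rat_below p
  obtain ⟨p2, kp2, tp2⟩ := rat_above p
  obtain ⟨q1, kq1, tq1⟩ := rat_below q
  obtain ⟨q2, kq2, tq2⟩ := rat_above q
  have herr := err_tendsto C h1 h2 h3 ta1 ta2 tb1 tb2 tp1 tp2 tq1 tq2
    (fun m => (ka1 m).trans (ka2 m)) (fun m => (kb1 m).trans (kb2 m))
    (fun m => (kp1 m).trans (kp2 m)) (fun m => (kq1 m).trans (kq2 m))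
  refine squeeze_conv fun ε hε => ?_
  obtain ⟨m, e1, e2, e3, e4⟩ := ((herr.eventually (gt_mem_nhds hε)).and
    ((ta2.eventually_lt tb1 h1).and ((tb2.eventually_lt tp1 h2).and
      (tp2.eventually_lt tq1 h3)))).exists
  obtain ⟨li, hi⟩ := hq (a2 m, b1 m, p2 m, q1 m)
  obtain ⟨lo, ho⟩ := hq (a1 m, b2 m, p1 m, q2 m)
  refine ⟨_, _, li, lo, hi, ho, ?_, fun j => ⟨?_, ?_⟩⟩
  · have := diff_le H hψ (a := a1 m) (a' := a2 m) (b := b1 m) (b' := b2 m) (p := p1 m)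
      (p' := p2 m) (q := q1 m) (q' := q2 m) ((ka1 m).trans (ka2 m)) e2 ((kb1 m).trans (kb2 m)) e3
      ((kp1 m).trans (kp2 m)) e4 ((kq1 m).trans (kq2 m)) ho hi
    exact this.trans_lt e1
  · exact X_mono _ (ka2 m).le (kb1 m).le (kp2 m).le (kq1 m).le
  · exact X_mono _ (ka1 m).le (kb2 m).le (kp1 m).le (kq2 m).le

/-- the ordered quadruples -/
def Dom : Set (ℝ × ℝ × ℝ × ℝ) := {t | t.1 < t.2.1 ∧ t.2.1 < t.2.2.1 ∧ t.2.2.1 < t.2.2.2}

/-- continuity of the limit -/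
theorem cont {c C : ℝ} (H : BD c C) {ψ : ℕ → ℕ} (hψ : StrictMono ψ) {Q : ℝ → ℝ → ℝ → ℝ → ℝ}
    (hQ : ∀ a b p q : ℝ, a < b → b < p → p < q →
      Tendsto (fun j => X (ψ j) a b p q) atTop (𝓝 (Q a b p q))) :
    ContinuousOn (fun t : ℝ × ℝ × ℝ × ℝ => Q t.1 t.2.1 t.2.2.1 t.2.2.2) Dom := by
  rintro ⟨a, b, p, q⟩ ⟨h1, h2, h3⟩
  simp only at h1 h2 h3
  have hd : Tendsto (fun m : ℕ => 1 / ((m:ℝ) + 1)) atTop (𝓝 0) :=
    tendsto_one_div_add_atTop_nhds_zero_nat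
  have hm : ∀ y : ℝ, Tendsto (fun m : ℕ => y - 1 / ((m:ℝ) + 1)) atTop (𝓝 y) := fun y => by
    have := (tendsto_const_nhds (x := y)).sub hd
    rwa [sub_zero] at this
  have hp : ∀ y : ℝ, Tendsto (fun m : ℕ => y + 1 / ((m:ℝ) + 1)) atTop (𝓝 y) := fun y => by
    have := (tendsto_const_nhds (x := y)).add hd
    rwa [add_zero] at this
  have hlt : ∀ (y : ℝ) (m : ℕ), y - 1 / ((m:ℝ) + 1) < y + 1 / ((m:ℝ) + 1) := fun y m => by
    have : (0:ℝ) < 1 / ((m:ℝ) + 1) := by positivity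
    linarith
  have herr := err_tendsto C h1 h2 h3 (hm a) (hp a) (hm b) (hp b) (hm p) (hp p) (hm q) (hp q)
    (hlt a) (hlt b) (hlt p) (hlt q)
  rw [Metric.continuousWithinAt_iff]
  intro ε hε
  obtain ⟨m, e1, e2, e3, e4⟩ := ((herr.eventually (gt_mem_nhds hε)).and
    (((hp a).eventually_lt (hm b) h1).and (((hp b).eventually_lt (hm p) h2).and
      ((hp p).eventually_lt (hm q) h3)))).exists
  have hδ : (0:ℝ) < 1 / ((m:ℝ) + 1) := by positivity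
  obtain ⟨δ, hδe⟩ : ∃ δ : ℝ, δ = 1 / ((m:ℝ) + 1) := ⟨_, rfl⟩
  rw [← hδe] at hδ e1 e2 e3 e4
  refine ⟨δ, hδ, ?_⟩
  rintro ⟨a', b', p', q'⟩ ⟨k1, k2, k3⟩ hdist
  simp only at k1 k2 k3
  simp only [Prod.dist_eq, max_lt_iff, Real.dist_eq, abs_lt] at hdist
  obtain ⟨da, db, dp, dq⟩ := hdist
  have ho := hQ (a - δ) (b + δ) (p - δ) (q + δ) (by linarith) (by linarith) (by linarith)
  have hi := hQ (a + δ) (b - δ) (p + δ) (q - δ) (by linarith) (by linarith) (by linarith)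
  have hdiff := diff_le H hψ (a := a - δ) (a' := a + δ) (b := b - δ) (b' := b + δ) (p := p - δ)
      (p' := p + δ) (q := q - δ) (q' := q + δ) (by linarith) e2 (by linarith) e3
      (by linarith) e4 (by linarith) ho hi
  have mo : ∀ {a a₁ b b₁ p p₁ q q₁ : ℝ}, a < b → b < p → p < q → a₁ < b₁ → b₁ < p₁ → p₁ < q₁ →
      a ≤ a₁ → b₁ ≤ b → p ≤ p₁ → q₁ ≤ q → Q a₁ b₁ p₁ q₁ ≤ Q a b p q := by
    intro a a₁ b b₁ p p₁ q q₁ u1 u2 u3 v1 v2 v3 w1 w2 w3 w4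
    exact le_of_tendsto_of_tendsto (hQ _ _ _ _ v1 v2 v3) (hQ _ _ _ _ u1 u2 u3)
      (Eventually.of_forall fun j => X_mono _ w1 w2 w3 w4)
  have m1 : Q a b p q ≤ Q (a - δ) (b + δ) (p - δ) (q + δ) :=
    mo (by linarith) (by linarith) (by linarith) h1 h2 h3 (by linarith) (by linarith) (by linarith)
      (by linarith)
  have m2 : Q (a + δ) (b - δ) (p + δ) (q - δ) ≤ Q a b p q :=
    mo h1 h2 h3 (by linarith) (by linarith) (by linarith) (by linarith) (by linarith) (by linarith)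
      (by linarith)
  have m3 : Q a' b' p' q' ≤ Q (a - δ) (b + δ) (p - δ) (q + δ) :=
    mo (by linarith) (by linarith) (by linarith) k1 k2 k3 (by linarith) (by linarith) (by linarith)
      (by linarith)
  have m4 : Q (a + δ) (b - δ) (p + δ) (q - δ) ≤ Q a' b' p' q' :=
    mo k1 k2 k3 (by linarith) (by linarith) (by linarith) (by linarith) (by linarith) (by linarith)
      (by linarith)
  rw [Real.dist_eq, abs_lt]
  constructor <;> linarith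

/-- **subsequential limits** -/
theorem subseq {c C : ℝ} (H : BD c C) (ψ : ℕ → ℕ) (hψ : StrictMono ψ) :
    ∃ φ : ℕ → ℕ, StrictMono φ ∧ ∃ Q : ℝ → ℝ → ℝ → ℝ → ℝ,
      (∀ a b p q : ℝ, a < b → b < p → p < q →
        Tendsto (fun j => X (ψ (φ j)) a b p q) atTop (𝓝 (Q a b p q))) ∧
      ContinuousOn (fun t : ℝ × ℝ × ℝ × ℝ => Q t.1 t.2.1 t.2.2.1 t.2.2.2) Dom ∧
      ∀ a b p q : ℝ, a < b → b < p → p < q →
        c * FC a b p q ≤ Q a b p q ∧ Q a b p q ≤ C * FC a b p q ∧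
        c * (1 - FC a b p q) ≤ 1 - Q a b p q ∧ 1 - Q a b p q ≤ C * (1 - FC a b p q) := by
  classical
  obtain ⟨φ, hφ, hq⟩ := rat_subseq ψ
  have hs : StrictMono (fun j => ψ (φ j)) := hψ.comp hφ
  have hex : ∀ a b p q : ℝ, ∃ l : ℝ, a < b → b < p → p < q →
      Tendsto (fun j => X (ψ (φ j)) a b p q) atTop (𝓝 l) := by
    intro a b p q
    by_cases h : a < b ∧ b < p ∧ p < q
    · obtain ⟨l, hl⟩ := all_conv H hs hq h.1 h.2.1 h.2.2
      exact ⟨l, fun _ _ _ => hl⟩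
    · exact ⟨0, fun h1 h2 h3 => absurd ⟨h1, h2, h3⟩ h⟩
  choose Q hQ using hex
  refine ⟨φ, hφ, Q, hQ, cont H hs hQ, ?_⟩
  intro a b p q h1 h2 h3
  obtain ⟨G, hG, hb⟩ := bounds H h1 h2 h3
  have hG' := hG.comp hs.tendsto_atTop
  have hX := hQ a b p q h1 h2 h3
  have hb' := hs.tendsto_atTop.eventually hb
  refine ⟨?_, ?_, ?_, ?_⟩
  · exact le_of_tendsto_of_tendsto (hG'.const_mul c) hX (hb'.mono fun j hj => hj.1)
  · exact le_of_tendsto_of_tendsto hX (hG'.const_mul C) (hb'.mono fun j hj => hj.2.1)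
  · exact le_of_tendsto_of_tendsto ((tendsto_const_nhds.sub hG').const_mul c)
      (tendsto_const_nhds.sub hX) (hb'.mono fun j hj => hj.2.2.1)
  · exact le_of_tendsto_of_tendsto (tendsto_const_nhds.sub hX)
      ((tendsto_const_nhds.sub hG').const_mul C) (hb'.mono fun j hj => hj.2.2.2)

end Pool.Agent.V11321.QL
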