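import Pool.Agent.TH976.QC.Fin
import Pool.Agent.V11321.LL.Lim

/-!
Subsequential limits of the crossing probabilities of the quadrant, for all quadruples at once.
-/

set_option autoImplicit false

namespace Pool.Agent.V11321.QL

open MeasureTheory Filter Topology
open TH976.QC hiding sq
open H974


/-- cross-ratio -/
noncomputable def crr (z₁ z₂ z₃ z₄ : ℝ) : ℝ :=
  ((z₂ - z₁) * (z₄ - z₃)) / ((z₃ - z₁) * (z₄ - z₂))

/-- Cardy's function of the quadrant -/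
noncomputable def FC (a b c d : ℝ) : ℝ := H731C.cardyF (crr (TH976.QC.sq a) (TH976.QC.sq b) (TH976.QC.sq c) (TH976.QC.sq d))

theorem sq_cont : Continuous TH976.QC.sq := by
  unfold TH976.QC.sq
  fun_prop

theorem crr_mem {z₁ z₂ z₃ z₄ : ℝ} (h1 : z₁ < z₂) (h2 : z₂ < z₃) (h3 : z₃ < z₄) :
    crr z₁ z₂ z₃ z₄ ∈ Set.Icc (0:ℝ) 1 := by
  unfold crr
  have h4 : 0 < (z₃ - z₁) * (z₄ - z₂) := mul_pos (by linarith) (by linarith)
  constructor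
  · exact div_nonneg (mul_nonneg (by linarith) (by linarith)) h4.le
  · rw [div_le_one h4]
    nlinarith [mul_pos (sub_pos.2 h2) (sub_pos.2 (h1.trans (h2.trans h3)))]

theorem crr_tendsto {ι : Type*} {l : Filter ι} {p q r s : ι → ℝ} {p0 q0 r0 s0 : ℝ}
    (hp : Tendsto p l (𝓝 p0)) (hq : Tendsto q l (𝓝 q0)) (hr : Tendsto r l (𝓝 r0))
    (hs : Tendsto s l (𝓝 s0)) (h1 : p0 < r0) (h2 : q0 < s0) :
    Tendsto (fun i => crr (TH976.QC.sq (p i)) (TH976.QC.sq (q i)) (TH976.QC.sq (r i)) (TH976.QC.sq (s i))) l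
      (𝓝 (crr (TH976.QC.sq p0) (TH976.QC.sq q0) (TH976.QC.sq r0) (TH976.QC.sq s0))) := by
  have hp' := (sq_cont.tendsto p0).comp hp
  have hq' := (sq_cont.tendsto q0).comp hq
  have hr' := (sq_cont.tendsto r0).comp hr
  have hs' := (sq_cont.tendsto s0).comp hs
  have h3 := sq_strictMono h1
  have h4 := sq_strictMono h2
  refine ((hq'.sub hp').mul (hs'.sub hr')).div ((hr'.sub hp').mul (hs'.sub hq')) ?_
  have : 0 < (TH976.QC.sq r0 - TH976.QC.sq p0) * (TH976.QC.sq s0 - TH976.QC.sq q0) := mul_pos (by linarith) (by linarith)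
  exact this.ne'

theorem FC_tendsto {ι : Type*} {l : Filter ι} [l.NeBot] {p q r s : ι → ℝ} {p0 q0 r0 s0 : ℝ}
    (hp : Tendsto p l (𝓝 p0)) (hq : Tendsto q l (𝓝 q0)) (hr : Tendsto r l (𝓝 r0))
    (hs : Tendsto s l (𝓝 s0)) (h1 : p0 < r0) (h2 : q0 < s0)
    (hev : ∀ᶠ i in l, p i < q i ∧ q i < r i ∧ r i < s i) :
    Tendsto (fun i => FC (p i) (q i) (r i) (s i)) l (𝓝 (FC p0 q0 r0 s0)) := by
  have h3 := crr_tendsto hp hq hr hs h1 h2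
  have h4 : ∀ᶠ i in l, crr (TH976.QC.sq (p i)) (TH976.QC.sq (q i)) (TH976.QC.sq (r i)) (TH976.QC.sq (s i)) ∈ Set.Icc (0:ℝ) 1 := by
    filter_upwards [hev] with i hi
    exact crr_mem (sq_strictMono hi.1) (sq_strictMono hi.2.1) (sq_strictMono hi.2.2)
  have h5 : crr (TH976.QC.sq p0) (TH976.QC.sq q0) (TH976.QC.sq r0) (TH976.QC.sq s0) ∈ Set.Icc (0:ℝ) 1 :=
    isClosed_Icc.mem_of_tendsto h3 h4
  have h6 : Tendsto LL.cd (𝓝[Set.Icc 0 1] (crr (TH976.QC.sq p0) (TH976.QC.sq q0) (TH976.QC.sq r0) (TH976.QC.sq s0)))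
      (𝓝 (LL.cd (crr (TH976.QC.sq p0) (TH976.QC.sq q0) (TH976.QC.sq r0) (TH976.QC.sq s0)))) := LL.cd_cont _ h5
  exact h6.comp (tendsto_nhdsWithin_iff.2 ⟨h3, h4⟩)

theorem FC_zero_left {a c d : ℝ} : FC a a c d = 0 := by
  unfold FC crr
  rw [sub_self, zero_mul, zero_div]
  unfold H731C.cardyF
  rw [intervalIntegral.integral_same, zero_div]

theorem FC_zero_right {a b c : ℝ} : FC a b c c = 0 := by
  unfold FC crr
  rw [sub_self, mul_zero, zero_div]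
  unfold H731C.cardyF
  rw [intervalIntegral.integral_same, zero_div]

/-- the rescaled crossing probability -/
noncomputable def X (n : ℕ) (a b c d : ℝ) : ℝ :=
  crossQ (Set.Icc ⌈a * n⌉ ⌊b * n⌋) (Set.Icc ⌈c * n⌉ ⌊d * n⌋)

theorem prob : IsProbabilityMeasure (bondLaw H731C.half) := inferInstance

theorem joined_mono {I I' J J' : Set ℤ} (h1 : I ⊆ I') (h2 : J ⊆ J') : JoinedQ I J ⊆ JoinedQ I' J' := by
  rintro ω ⟨x, hx, y, hy, h⟩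
  exact ⟨x, h1 hx, y, h2 hy, h⟩

theorem crossQ_mono {I I' J J' : Set ℤ} (h1 : I ⊆ I') (h2 : J ⊆ J') : crossQ I J ≤ crossQ I' J' :=
  haveI := prob
  measureReal_mono (joined_mono h1 h2) (measure_ne_top _ _)

theorem X_nonneg (n : ℕ) (a b c d : ℝ) : 0 ≤ X n a b c d := measureReal_nonneg

theorem X_le_one (n : ℕ) (a b c d : ℝ) : X n a b c d ≤ 1 :=
  haveI := prob
  measureReal_le_one

theorem X_mono (n : ℕ) {a b c d a₁ b₁ c₁ d₁ : ℝ} (ha : a ≤ a₁) (hb : b₁ ≤ b) (hc : c ≤ c₁)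
    (hd : d₁ ≤ d) : X n a₁ b₁ c₁ d₁ ≤ X n a b c d := by
  have hn : (0:ℝ) ≤ n := Nat.cast_nonneg n
  refine crossQ_mono (Set.Icc_subset_Icc ?_ ?_) (Set.Icc_subset_Icc ?_ ?_)
  · exact Int.ceil_le_ceil (mul_le_mul_of_nonneg_right ha hn)
  · exact Int.floor_le_floor (mul_le_mul_of_nonneg_right hb hn)
  · exact Int.ceil_le_ceil (mul_le_mul_of_nonneg_right hc hn)
  · exact Int.floor_le_floor (mul_le_mul_of_nonneg_right hd hn)

theorem X_union (n : ℕ) (a b c d a₁ b₁ c₁ d₁ : ℝ) : X n a b c d ≤ X n a₁ b₁ c₁ d₁ +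
    (X n a a₁ c d + X n b₁ b c d + X n a b c c₁ + X n a b d₁ d) := by
  haveI := prob
  have hsub : JoinedQ (Set.Icc ⌈a * n⌉ ⌊b * n⌋) (Set.Icc ⌈c * n⌉ ⌊d * n⌋) ⊆
      JoinedQ (Set.Icc ⌈a₁ * n⌉ ⌊b₁ * n⌋) (Set.Icc ⌈c₁ * n⌉ ⌊d₁ * n⌋) ∪
      (((JoinedQ (Set.Icc ⌈a * n⌉ ⌊a₁ * n⌋) (Set.Icc ⌈c * n⌉ ⌊d * n⌋) ∪
      JoinedQ (Set.Icc ⌈b₁ * n⌉ ⌊b * n⌋) (Set.Icc ⌈c * n⌉ ⌊d * n⌋)) ∪
      JoinedQ (Set.Icc ⌈a * n⌉ ⌊b * n⌋) (Set.Icc ⌈c * n⌉ ⌊c₁ * n⌋)) ∪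
      JoinedQ (Set.Icc ⌈a * n⌉ ⌊b * n⌋) (Set.Icc ⌈d₁ * n⌉ ⌊d * n⌋)) := by
    rintro ω ⟨x, hx, y, hy, h⟩
    have f1 := Int.ceil_le_floor_add_one (a₁ * (n:ℝ))
    have f2 := Int.ceil_le_floor_add_one (b₁ * (n:ℝ))
    have f3 := Int.ceil_le_floor_add_one (c₁ * (n:ℝ))
    have f4 := Int.ceil_le_floor_add_one (d₁ * (n:ℝ))
    rw [Set.mem_Icc] at hx hy
    by_cases h1 : x < ⌈a₁ * (n:ℝ)⌉
    · exact Or.inr (Or.inl (Or.inl (Or.inl ⟨x, ⟨hx.1, by omega⟩, y, hy, h⟩)))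
    by_cases h2 : ⌊b₁ * (n:ℝ)⌋ < x
    · exact Or.inr (Or.inl (Or.inl (Or.inr ⟨x, ⟨by omega, hx.2⟩, y, hy, h⟩)))
    by_cases h3 : y < ⌈c₁ * (n:ℝ)⌉
    · exact Or.inr (Or.inl (Or.inr ⟨x, hx, y, ⟨hy.1, by omega⟩, h⟩))
    by_cases h4 : ⌊d₁ * (n:ℝ)⌋ < y
    · exact Or.inr (Or.inr ⟨x, hx, y, ⟨by omega, hy.2⟩, h⟩)
    exact Or.inl ⟨x, ⟨by omega, by omega⟩, y, ⟨by omega, by omega⟩, h⟩
  refine (measureReal_mono hsub (measure_ne_top _ _)).trans ?_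
  refine (measureReal_union_le _ _).trans ?_
  refine add_le_add le_rfl ?_
  refine (measureReal_union_le _ _).trans (add_le_add ?_ le_rfl)
  refine (measureReal_union_le _ _).trans (add_le_add ?_ le_rfl)
  exact measureReal_union_le _ _

/-- the bounds of the quadrant theorem -/
def BD (c C : ℝ) : Prop := ∀ a b c' d : ℤ, a ≤ b → b < c' → c' ≤ d →
  CBd c C (crossQ (Set.Icc a b) (Set.Icc c' d)) (cr a b c' d)

theorem sq_div (t : ℝ) {n : ℝ} (hn : 0 < n) : TH976.QC.sq (t / n) = TH976.QC.sq t / n^2 := by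
  unfold TH976.QC.sq
  rw [abs_div, abs_of_pos hn]
  field_simp

theorem crr_scale (x y z w : ℝ) {n : ℝ} (hn : 0 < n) :
    crr (x / n) (y / n) (z / n) (w / n) = crr x y z w := by
  unfold crr
  rw [← sub_div, ← sub_div, ← sub_div, ← sub_div, div_mul_div_comm, div_mul_div_comm,
    div_div_div_cancel_right₀ (by positivity)]

theorem near_div {f : ℕ → ℤ} {y : ℝ} (h : ∀ n : ℕ, |(f n : ℝ) - y * n| ≤ 1) :
    Tendsto (fun n : ℕ => (f n : ℝ) / n) atTop (𝓝 y) := by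
  have hinv : Tendsto (fun n : ℕ => 1 / (n:ℝ)) atTop (𝓝 0) :=
    tendsto_const_nhds.div_atTop tendsto_natCast_atTop_atTop
  rw [tendsto_iff_dist_tendsto_zero]
  refine squeeze_zero' (Eventually.of_forall fun n => dist_nonneg) ?_ hinv
  filter_upwards [eventually_ge_atTop 1] with n hn
  have hn0 : (0:ℝ) < n := by exact_mod_cast hn
  rw [Real.dist_eq, show (f n : ℝ) / n - y = ((f n : ℝ) - y * n) / n by field_simp, abs_div,
    abs_of_pos hn0]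
  exact div_le_div_of_nonneg_right (h n) hn0.le

/-- bounds in the limit -/
theorem bounds {c C : ℝ} (H : BD c C) {p q r s : ℝ} (h1 : p < q) (h2 : q < r) (h3 : r < s) :
    ∃ G : ℕ → ℝ, Tendsto G atTop (𝓝 (FC p q r s)) ∧ ∀ᶠ n : ℕ in atTop,
      c * G n ≤ X n p q r s ∧ X n p q r s ≤ C * G n ∧
        c * (1 - G n) ≤ 1 - X n p q r s ∧ 1 - X n p q r s ≤ C * (1 - G n) := by
  have hN : Tendsto (fun n : ℕ => (n:ℝ)) atTop atTop := tendsto_natCast_atTop_atTop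
  have hfl : ∀ y : ℝ, Tendsto (fun n : ℕ => ((⌊y * (n:ℝ)⌋ : ℤ) : ℝ) / n) atTop (𝓝 y) := fun y => by
    refine near_div fun n => ?_
    rw [abs_le]
    constructor
    · linarith [Int.sub_one_lt_floor (y * (n:ℝ))]
    · linarith [Int.floor_le (y * (n:ℝ))]
  have hce : ∀ y : ℝ, Tendsto (fun n : ℕ => ((⌈y * (n:ℝ)⌉ : ℤ) : ℝ) / n) atTop (𝓝 y) := fun y => by
    refine near_div fun n => ?_
    rw [abs_le]
    constructor
    · linarith [Int.le_ceil (y * (n:ℝ))]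
    · linarith [Int.ceil_lt_add_one (y * (n:ℝ))]
  have hinv : Tendsto (fun n : ℕ => 1 / (n:ℝ)) atTop (𝓝 0) := tendsto_const_nhds.div_atTop hN
  have t1 : Tendsto (fun n : ℕ => (((⌈p * (n:ℝ)⌉ : ℤ) : ℝ) - 1) / n) atTop (𝓝 p) := by
    have := (hce p).sub hinv
    rw [sub_zero] at this
    exact this.congr fun n => by rw [sub_div]
  have t4 : Tendsto (fun n : ℕ => (((⌊s * (n:ℝ)⌋ : ℤ) : ℝ) + 1) / n) atTop (𝓝 s) := by
    have := (hfl s).add hinv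
    rw [add_zero] at this
    exact this.congr fun n => by rw [add_div]
  have hlt : ∀ᶠ n : ℕ in atTop, (((⌈p * (n:ℝ)⌉ : ℤ) : ℝ) - 1) / n < ((⌊q * (n:ℝ)⌋ : ℤ) : ℝ) / n ∧
      ((⌊q * (n:ℝ)⌋ : ℤ) : ℝ) / n < ((⌈r * (n:ℝ)⌉ : ℤ) : ℝ) / n ∧
      ((⌈r * (n:ℝ)⌉ : ℤ) : ℝ) / n < (((⌊s * (n:ℝ)⌋ : ℤ) : ℝ) + 1) / n := by
    filter_upwards [t1.eventually_lt (hfl q) h1, (hfl q).eventually_lt (hce r) h2,
      (hce r).eventually_lt t4 h3] with n h4 h5 h6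
    exact ⟨h4, h5, h6⟩
  refine ⟨fun n => FC ((((⌈p * (n:ℝ)⌉ : ℤ) : ℝ) - 1) / n) (((⌊q * (n:ℝ)⌋ : ℤ) : ℝ) / n)
    (((⌈r * (n:ℝ)⌉ : ℤ) : ℝ) / n) ((((⌊s * (n:ℝ)⌋ : ℤ) : ℝ) + 1) / n),
    FC_tendsto t1 (hfl q) (hce r) t4 (h1.trans h2) (h2.trans h3) hlt, ?_⟩
  filter_upwards [hlt, (hce p).eventually_lt (hfl q) h1, (hce r).eventually_lt (hfl s) h3,
    eventually_ge_atTop 1] with n hn h5 h6 h7
  have hn0 : (0:ℝ) < n := by exact_mod_cast h7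
  have e1 : ⌈p * (n:ℝ)⌉ ≤ ⌊q * (n:ℝ)⌋ := by
    have := (div_lt_div_iff_of_pos_right hn0).1 h5
    exact_mod_cast this.le
  have e2 : ⌊q * (n:ℝ)⌋ < ⌈r * (n:ℝ)⌉ := by
    have := (div_lt_div_iff_of_pos_right hn0).1 hn.2.1
    exact_mod_cast this
  have e3 : ⌈r * (n:ℝ)⌉ ≤ ⌊s * (n:ℝ)⌋ := by
    have := (div_lt_div_iff_of_pos_right hn0).1 h6
    exact_mod_cast this.le
  have h8 := H _ _ _ _ e1 e2 e3
  have e4 : FC ((((⌈p * (n:ℝ)⌉ : ℤ) : ℝ) - 1) / n) (((⌊q * (n:ℝ)⌋ : ℤ) : ℝ) / n)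
    (((⌈r * (n:ℝ)⌉ : ℤ) : ℝ) / n) ((((⌊s * (n:ℝ)⌋ : ℤ) : ℝ) + 1) / n) =
    H731C.cardyF (cr ⌈p * (n:ℝ)⌉ ⌊q * (n:ℝ)⌋ ⌈r * (n:ℝ)⌉ ⌊s * (n:ℝ)⌋) := by
    unfold FC cr
    rw [sq_div _ hn0, sq_div _ hn0, sq_div _ hn0, sq_div _ hn0, crr_scale _ _ _ _ (by positivity)]
    rfl
  simp only [e4]
  exact h8

/-- convergence by squeezing -/
theorem squeeze_conv {x : ℕ → ℝ} (h : ∀ ε : ℝ, 0 < ε → ∃ (u v : ℕ → ℝ) (lu lv : ℝ),
    Tendsto u atTop (𝓝 lu) ∧ Tendsto v atTop (𝓝 lv) ∧ lv - lu < ε ∧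
      ∀ j, u j ≤ x j ∧ x j ≤ v j) : ∃ l, Tendsto x atTop (𝓝 l) := by
  refine cauchySeq_tendsto_of_complete ?_
  rw [Metric.cauchySeq_iff]
  intro ε hε
  obtain ⟨u, v, lu, lv, hu, hv, hlt, hb⟩ := h (ε / 3) (by positivity)
  have h1 : ∀ᶠ j in atTop, lu - ε / 3 < u j := hu.eventually (lt_mem_nhds (by linarith))
  have h2 : ∀ᶠ j in atTop, v j < lv + ε / 3 := hv.eventually (gt_mem_nhds (by linarith))
  obtain ⟨N, hN⟩ := eventually_atTop.1 (h1.and h2)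
  refine ⟨N, fun m hm k hk => ?_⟩
  have a1 := hN m hm
  have a2 := hN k hk
  have b1 := hb m
  have b2 := hb k
  rw [Real.dist_eq, abs_lt]
  constructor <;> linarith

/-- difference of the limits at an outer and an inner quadruple -/
theorem diff_le {c C : ℝ} (H : BD c C) {ψ : ℕ → ℕ} (hψ : StrictMono ψ)
    {a a' b b' p p' q q' lo li : ℝ} (h1 : a < a') (h2 : a' < b) (h3 : b < b') (h4 : b' < p)
    (h5 : p < p') (h6 : p' < q) (h7 : q < q')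
    (ho : Tendsto (fun j => X (ψ j) a b' p q') atTop (𝓝 lo))
    (hi : Tendsto (fun j => X (ψ j) a' b p' q) atTop (𝓝 li)) :
    lo - li ≤ C * (FC a a' p q' + FC b b' p q' + FC a b' p p' + FC a b' q q') := by
  obtain ⟨G1, hG1, e1⟩ := bounds H (p := a) (q := a') (r := p) (s := q') h1 (by linarith) (by linarith)
  obtain ⟨G2, hG2, e2⟩ := bounds H (p := b) (q := b') (r := p) (s := q') h3 h4 (by linarith)
  obtain ⟨G3, hG3, e3⟩ := bounds H (p := a) (q := b') (r := p) (s := p') (by linarith) h4 h5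
  obtain ⟨G4, hG4, e4⟩ := bounds H (p := a) (q := b') (r := q) (s := q') (by linarith) (by linarith) h7
  have hs := hψ.tendsto_atTop
  have hlim : Tendsto (fun j => C * (G1 (ψ j) + G2 (ψ j) + G3 (ψ j) + G4 (ψ j))) atTop
      (𝓝 (C * (FC a a' p q' + FC b b' p q' + FC a b' p p' + FC a b' q q'))) :=
    (((((hG1.comp hs).add (hG2.comp hs)).add (hG3.comp hs)).add (hG4.comp hs))).const_mul C
  refine le_of_tendsto_of_tendsto (ho.sub hi) hlim ?_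
  filter_upwards [hs.eventually e1, hs.eventually e2, hs.eventually e3, hs.eventually e4]
    with j f1 f2 f3 f4
  have hu := X_union (ψ j) a b' p q' a' b p' q
  linarith [f1.2.1, f2.2.1, f3.2.1, f4.2.1]

end Pool.Agent.V11321.QL
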